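import Mathlib
import Pool.Agent.H881R3.Expand.Final
import Pool.Agent.H881R3.Expand.Centre

set_option autoImplicit false

open Set Metric Topology

namespace Pool.Agent.Results.MP_c0b923_gt.CentreBound

/-- Let `n ≥ 1`. Let `f` map the cube `[-1,1]^n` to `ℝ^n`, continuous and locally distance
non-decreasing (every point of the cube has a neighbourhood in the cube on which `f` does not
decrease distances), with image in the closed ball of centre `z` and radius `r`. If `κ` is the
distance from `f o` to `z`, where `o` is the centre `0` of the cube, then `min (√n) (2 + |κ - 1|) ≤ r`. For `n ≤ 4`, and for `n ≤ 9` if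
`f o = z`, this is the sharp bound `√n ≤ r`. -/
theorem result (n : ℕ) (hn : 1 ≤ n)
    (f : {x : EuclideanSpace ℝ (Fin n) // ∀ i, |x i| ≤ 1} → EuclideanSpace ℝ (Fin n))
    (hf : Continuous f)
    (hexp : ∀ x, ∃ U ∈ 𝓝 x, ∀ y ∈ U, ∀ w ∈ U, dist y w ≤ dist (f y) (f w))
    (z : EuclideanSpace ℝ (Fin n)) (r : ℝ) (hr : ∀ x, f x ∈ closedBall z r)
    (o : {x : EuclideanSpace ℝ (Fin n) // ∀ i, |x i| ≤ 1})
    (ho : (o : EuclideanSpace ℝ (Fin n)) = 0) :
    min (Real.sqrt n) (2 + |dist (f o) z - 1|) ≤ r := by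
  obtain ⟨δ, hδ⟩ := Pool.Agent.H881R3.Expand.exists_expd (n := n) f hf hexp
  by_contra hcon
  rw [not_le, lt_min_iff] at hcon
  obtain ⟨h1, h2⟩ := hcon
  have e0 : f (Pool.Agent.H881R3.Expand.clamp 0) = f o := by
    rw [← ho]
    congr 1
    exact Pool.Agent.H881R3.Expand.clamp_of_mem o
  rw [← e0] at h2
  have h3 := Pool.Agent.H881R3.Expand.inradius (by omega) hδ z r (fun x _ => hr _) 0 1
    zero_le_one (by intro i; simp)
  rcases lt_or_ge (dist (f (Pool.Agent.H881R3.Expand.clamp 0)) z) 1 with hk | hk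
  · rw [abs_of_neg (by linarith)] at h2
    exact Pool.Agent.H881R3.Expand.strong_centre (by omega) hδ z r (fun x _ => hr _)
      (dist (f (Pool.Agent.H881R3.Expand.clamp 0)) z) le_rfl hk (by linarith) h1
  · rw [abs_of_nonneg (by linarith)] at h2
    linarith

end Pool.Agent.Results.MP_c0b923_gt.CentreBound
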